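import Pool.Agent.Y877.SxI
import Pool.Agent.Y877.SxR

/-!
# `n = k + m` with `6k - 1` prime, `6k + 1` a product of at most two primes, and `p_m + h` prime for almost all multiples `h`
-/

set_option autoImplicit false

open Finset

namespace Pool.Agent.Results.MP_ea8352_nt.ChenIndexShifts

/-- the `k`-th prime, `p 1 = 2` -/
noncomputable def p (k : ℕ) : ℕ := Nat.nth Nat.Prime (k - 1)

/-- `q` is a prime and `q + 2` is a product of at most two primes, each with ninth power `> q` -/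
def Chen (q : ℕ) : Prop := q.Prime ∧ (q + 2).primeFactorsList.length ≤ 2 ∧ ∀ r : ℕ, r.Prime → r ∣ q + 2 → q < r ^ 9

/-- the product of `1 - 1/q` over the primes `q ≤ y` -/
noncomputable def V (y : ℕ) : ℝ := ∏ q ∈ (Icc 1 y).filter Nat.Prime, (1 - 1 / (q : ℝ))

open Classical in
/-- the `k`, `0 < k < n`, such that `6 k - 1` is a Chen prime -/
noncomputable def ChenK (n : ℕ) : Finset ℕ := (Ioo 0 n).filter (fun k => Chen (6 * k - 1))

/-- the `k ∈ K` such that `p_m + h` is prime, where `m = n - k` -/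
noncomputable def Good (n : ℕ) (K : Finset ℕ) (h : ℕ) : Finset ℕ := K.filter (fun k => (p (n - k) + h).Prime)

theorem nth_inj : Function.Injective (Nat.nth Nat.Prime) := Nat.nth_injective Nat.infinite_setOfPred_prime

theorem pm_inj (n : ℕ) : Set.InjOn (fun k => p (n - k)) (Ioo 0 n : Finset ℕ) := by
  intro a ha b hb hab
  rw [mem_coe, mem_Ioo] at ha hb
  have := nth_inj hab
  omega

theorem six {X q : ℕ} (hX : 1953125 ≤ X) (hq : q.Prime) (hr : ∀ r : ℕ, r.Prime → (r : ℤ) ∣ (-2 : ℤ) - q → X < r ^ 9) :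
    ∃ k, q = 6 * k - 1 ∧ 1 ≤ k := by
  have hd : ∀ r : ℕ, r ∣ q + 2 → (r : ℤ) ∣ (-2 : ℤ) - q := by
    intro r h
    have : (-2 : ℤ) - q = -((q + 2 : ℕ) : ℤ) := by push_cast; ring
    rw [this, dvd_neg]
    exact_mod_cast h
  have h2 : ¬ 2 ∣ q + 2 := fun h => by
    have := hr 2 Nat.prime_two (hd 2 h)
    norm_num at this
    omega
  have h3 : ¬ 3 ∣ q + 2 := fun h => by
    have := hr 3 Nat.prime_three (hd 3 h)
    norm_num at this
    omega
  have hq3 : ¬ 3 ∣ q := by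
    intro h
    have h4 := (Nat.prime_dvd_prime_iff_eq Nat.prime_three hq).1 h
    have := hr 5 Nat.prime_five (hd 5 (by omega))
    norm_num at this
    omega
  have a2 : (q + 2) % 2 ≠ 0 := fun h => h2 (Nat.dvd_of_mod_eq_zero h)
  have a3 : (q + 2) % 3 ≠ 0 := fun h => h3 (Nat.dvd_of_mod_eq_zero h)
  have a4 : q % 3 ≠ 0 := fun h => hq3 (Nat.dvd_of_mod_eq_zero h)
  have a6 : q % 3 = 2 := by omega
  have a7 : q % 2 = 1 := by omega
  clear a2 a3 a4 h2 h3 hq3
  have a5 : q % 6 = 5 := by omega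
  exact ⟨(q + 1) / 6, by omega, by omega⟩

theorem chen_low : ∃ c : ℝ, 0 < c ∧ ∃ n₀ : ℕ, ∀ n : ℕ, n₀ ≤ n → c * n / Real.log n ^ 2 ≤ ((ChenK n).card : ℝ) := by
  classical
  obtain ⟨c, hc, X0, hX⟩ := Pool.Agent.Y877.SX.chen_cnt'
  refine ⟨c / 2, by positivity, max X0 1953125, fun n hn => ?_⟩
  have b1 : X0 ≤ n := (le_max_left _ _).trans hn
  have b2 : 1953125 ≤ n := (le_max_right _ _).trans hn
  have h1 := hX (3 * n) (by omega) (-2) (by norm_num) (by
    have : (1953125 : ℤ) ≤ n := by exact_mod_cast b2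
    rw [abs_neg, abs_of_nonneg (by norm_num)]
    push_cast
    omega) (by decide)
  have h2 : (((Ioc 0 (3 * n)).filter (fun q : ℕ => q.Prime ∧ (-2 : ℤ) - q ≠ 0 ∧ ((-2 : ℤ) - q).natAbs.primeFactorsList.length ≤ 2 ∧
      ∀ r : ℕ, r.Prime → (r : ℤ) ∣ (-2 : ℤ) - q → 3 * n < r ^ 9)).card : ℝ) ≤ (ChenK n).card := by
    have : ((Ioc 0 (3 * n)).filter (fun q : ℕ => q.Prime ∧ (-2 : ℤ) - q ≠ 0 ∧ ((-2 : ℤ) - q).natAbs.primeFactorsList.length ≤ 2 ∧
      ∀ r : ℕ, r.Prime → (r : ℤ) ∣ (-2 : ℤ) - q → 3 * n < r ^ 9)).card ≤ (ChenK n).card := by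
      apply card_le_card_of_injOn (fun q => (q + 1) / 6)
      · intro q hq
        rw [mem_coe, mem_filter, mem_Ioc] at hq
        obtain ⟨⟨_, a1⟩, a2, _, a4, a5⟩ := hq
        obtain ⟨k, hk1, hk2⟩ := six (by omega : 1953125 ≤ 3 * n) a2 a5
        have hk3 : (q + 1) / 6 = k := by omega
        unfold ChenK
        rw [mem_coe, mem_filter, mem_Ioo]
        show (0 < (q + 1) / 6 ∧ (q + 1) / 6 < n) ∧ Chen (6 * ((q + 1) / 6) - 1)
        rw [hk3, ← hk1]
        refine ⟨⟨hk2, by omega⟩, a2, ?_, ?_⟩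
        · have h7 : ((-2 : ℤ) - q).natAbs = q + 2 := by omega
          rwa [h7] at a4
        · intro r hr hd
          have h8 := a5 r hr (by
            have : (-2 : ℤ) - q = -((q + 2 : ℕ) : ℤ) := by push_cast; ring
            rw [this, dvd_neg]
            exact_mod_cast hd)
          omega
      · intro a ha b hb hab
        rw [mem_coe, mem_filter, mem_Ioc] at ha hb
        obtain ⟨k, hk1, hk2⟩ := six (by omega : 1953125 ≤ 3 * n) ha.2.1 ha.2.2.2.2
        obtain ⟨l, hl1, hl2⟩ := six (by omega : 1953125 ≤ 3 * n) hb.2.1 hb.2.2.2.2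
        simp only at hab
        omega
    exact_mod_cast this
  refine le_trans ?_ (h1.trans (le_of_eq_of_le (by congr) h2))
  have hnr : (3 : ℝ) ≤ n := by
    have : (1953125 : ℝ) ≤ n := by exact_mod_cast b2
    linarith
  have hL : 0 < Real.log n := Real.log_pos (by linarith)
  have h3 : Real.log ((3 * n : ℕ) : ℝ) ≤ 2 * Real.log n := by
    push_cast
    have := Real.log_le_log (by linarith : (0 : ℝ) < 3 * n) (by nlinarith : (3 : ℝ) * n ≤ n ^ 2)
    rwa [Real.log_pow, Nat.cast_ofNat] at this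
  have h4 : 0 < Real.log ((3 * n : ℕ) : ℝ) := Real.log_pos (by push_cast; linarith)
  rw [div_le_div_iff₀ (by positivity) (by positivity)]
  have h5 : Real.log ((3 * n : ℕ) : ℝ) ^ 2 ≤ (2 * Real.log n) ^ 2 := pow_le_pow_left₀ h4.le h3 2
  have h6 : 0 ≤ c * n := by positivity
  push_cast at h5 ⊢
  have h9 : c / 2 * n * Real.log (3 * n) ^ 2 ≤ c / 2 * n * (2 * Real.log n) ^ 2 := mul_le_mul_of_nonneg_left h5 (by positivity)
  have h10 : 0 ≤ c * n * Real.log n ^ 2 := by positivity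
  have h11 : c / 2 * n * (2 * Real.log n) ^ 2 = 2 * (c * n * Real.log n ^ 2) := by ring
  have h12 : c * (3 * n) * Real.log n ^ 2 = 3 * (c * n * Real.log n ^ 2) := by ring
  rw [h12]
  linarith

/-- There is an absolute constant `c > 0` such that for all `A`, `C` and `0 < ε ≤ 1` there is `K₀` such that for every `K₁` and
every large `n`, every `y` between `K₀ log log n` and `K₁ log log n`, with `M` the product of the primes `≤ y`, and every
window `(g₀, g₀ + G]` with `M (g₀ + G) ≤ n`, `G ≥ n / (M log ^ C n)`: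
(1) for every set `K` of at least `n / log ^ A n` integers `0 < k < n`, for all but at most `ε G` of the `g ≤ G` the number
`p_m + M (g₀ + g)`, `m = n - k`, is prime for at least `(1 - ε) #K / (V y log n)` elements `k` of `K`;
(2) `6 k - 1` is a Chen prime for at least `c n / log ^ 2 n` integers `0 < k < n`, and the conclusion of (1) holds for the
set of all these `k`. -/
theorem result : ∃ c : ℝ, 0 < c ∧ ∀ (A C : ℕ) (ε : ℝ), 0 < ε → ε ≤ 1 → ∃ K₀ : ℕ, ∀ K₁ : ℕ, ∃ n₀ : ℕ, ∀ n : ℕ, n₀ ≤ n →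
    ∀ y : ℕ, K₀ * Real.log (Real.log n) ≤ y → y ≤ K₁ * Real.log (Real.log n) →
    ∀ g₀ G : ℕ, primorial y * (g₀ + G) ≤ n → (n : ℝ) ≤ primorial y * G * Real.log n ^ C →
    (∀ K : Finset ℕ, K ⊆ Ioo 0 n → (n : ℝ) ≤ K.card * Real.log n ^ A →
      (((Icc 1 G).filter (fun g => ((Good n K (primorial y * (g₀ + g))).card : ℝ) <
        (1 - ε) * (K.card / (V y * Real.log n)))).card : ℝ) ≤ ε * G) ∧
    c * n / Real.log n ^ 2 ≤ ((ChenK n).card : ℝ) ∧
    (((Icc 1 G).filter (fun g => ((Good n (ChenK n) (primorial y * (g₀ + g))).card : ℝ) <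
      (1 - ε) * ((ChenK n).card / (V y * Real.log n)))).card : ℝ) ≤ ε * G := by
  obtain ⟨c, hc, n1, hn1⟩ := chen_low
  refine ⟨c, hc, fun A C ε hε hε1 => ?_⟩
  obtain ⟨K₀, hK₀⟩ := Pool.Agent.Y877.SX.step 1 (Or.inl rfl) (max A 3) 2 C ε hε hε1
  refine ⟨K₀, fun K₁ => ?_⟩
  obtain ⟨n2, hn2⟩ := hK₀ K₁
  obtain ⟨n3, hn3⟩ := Pool.Agent.H373R2.T7.ev_L' (max 1 (1 / c))
  obtain ⟨n5, hn5⟩ := Pool.Agent.Y877.SX.nth_le_log
  refine ⟨max (max n1 n2) (max n3 n5), fun n hn y hy1 hy2 g₀ G hg1 hg2 => ?_⟩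
  have b1 : n1 ≤ n := le_trans (le_trans (le_max_left _ _) (le_max_left _ _)) hn
  have b2 : n2 ≤ n := le_trans (le_trans (le_max_right _ _) (le_max_left _ _)) hn
  have b3 : n3 ≤ n := le_trans (le_trans (le_max_left _ _) (le_max_right _ _)) hn
  have b5 : n5 ≤ n := le_trans (le_trans (le_max_right _ _) (le_max_right _ _)) hn
  have hL := hn3 n b3
  have hL1 : 1 ≤ Real.log n := (le_max_left _ _).trans hL
  have hL2 : 1 / c ≤ Real.log n := (le_max_right _ _).trans hL
  have hlow := hn1 n b1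
  have f2 : ∀ k ∈ Ioo 0 n, (p (n - k)).Prime ∧ (p (n - k) : ℝ) ≤ n * Real.log n ^ 2 := by
    intro k hk
    rw [mem_Ioo] at hk
    exact ⟨Nat.prime_nth_prime _, hn5 n b5 (n - k - 1) (by omega)⟩
  have main : ∀ K : Finset ℕ, K ⊆ Ioo 0 n → (n : ℝ) ≤ K.card * Real.log n ^ (max A 3) →
      (((Icc 1 G).filter (fun g => ((Good n K (primorial y * (g₀ + g))).card : ℝ) <
        (1 - ε) * (K.card / (V y * Real.log n)))).card : ℝ) ≤ ε * G := by
    intro K hK hKc
    have h1 := hn2 n b2 y hy1 hy2 K hKc (fun k => p (n - k)) ((pm_inj n).mono (by exact_mod_cast hK))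
      (fun k hk => f2 k (hK hk)) g₀ G (by rw [pow_one]; exact hg1) (by rw [pow_one]; exact hg2)
    refine le_trans (le_of_eq ?_) h1
    congr 2
    apply filter_congr
    intro g _
    simp only [pow_one, Nat.cast_one, one_mul]
    rfl
  refine ⟨fun K hK hKc => main K hK (hKc.trans ?_), hlow, main (ChenK n) ?_ ?_⟩
  · apply mul_le_mul_of_nonneg_left _ (Nat.cast_nonneg _)
    exact pow_le_pow_right₀ hL1 (le_max_left _ _)
  · classical
    exact filter_subset _ _
  · have h3 : Real.log n ^ 3 ≤ Real.log n ^ (max A 3) := pow_le_pow_right₀ hL1 (le_max_right _ _)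
    refine le_trans ?_ (mul_le_mul_of_nonneg_left h3 (Nat.cast_nonneg _))
    have hL0 : 0 < Real.log n := by linarith
    rw [div_le_iff₀ (by positivity)] at hlow
    rw [div_le_iff₀ hc] at hL2
    have hn0 : (0 : ℝ) ≤ n := Nat.cast_nonneg n
    calc (n : ℝ) = n * 1 := by ring
      _ ≤ n * (Real.log n * c) := mul_le_mul_of_nonneg_left hL2 hn0
      _ = (c * n) * Real.log n := by ring
      _ ≤ ((ChenK n).card * Real.log n ^ 2) * Real.log n := mul_le_mul_of_nonneg_right hlow hL0.le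
      _ = _ := by ring

end Pool.Agent.Results.MP_ea8352_nt.ChenIndexShifts
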