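import Mathlib
import Pool.Agent.Y886.EPA
import Pool.Agent.Y886.EPB

set_option autoImplicit false
set_option maxHeartbeats 1000000

/-! # Decompositions with two Chen pairs

`n = k + m` is admissible if `6 k - 1` and `p_m` both are the lower members of twin prime pairs. Here
the condition that `q + 2` is prime is replaced, in both places, by the condition of Chen's theorem:
`q + 2` is a prime or a product of two primes (all of them large).
-/

namespace Pool.Agent.Results.MP_ea8352_nt.ChenPairs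

open Finset Filter

/-- `q` is a prime, and `q + 2` is a prime or a product of two primes, each of which, `p` say, has
`p ^ 9 > q`. -/
def Chen (q : ℕ) : Prop :=
  q.Prime ∧ (q + 2).primeFactorsList.length ≤ 2 ∧ ∀ p : ℕ, p.Prime → p ∣ q + 2 → q < p ^ 9

/-- **Theorem.** There is `c > 0` such that for all large `X` at least
`c X / (log log log log X)²` of the integers `n` with `X < n ≤ 3 X` have a decomposition `n = k + m`
with `k, m ≥ 1` and `m ≤ (log X)² (log log X)⁴` in which `6 k - 1` and `p_m` are both prime and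
`6 k + 1` and `p_m + 2` both are primes or products of two primes. -/
theorem result : ∃ c : ℝ, 0 < c ∧ ∀ᶠ X : ℕ in atTop,
    c * X / Real.log (Real.log (Real.log (Real.log X))) ^ 2 ≤
      Set.ncard {n : ℕ | X < n ∧ n ≤ 3 * X ∧ ∃ k m : ℕ, 1 ≤ k ∧ 1 ≤ m ∧ k + m = n ∧
        (m : ℝ) ≤ Real.log X ^ 2 * Real.log (Real.log X) ^ 4 ∧
        Chen (6 * k - 1) ∧ Chen (Nat.nth Nat.Prime (m - 1))} := by
  classical
  obtain ⟨r0, hr0, hrom⟩ := Pool.Agent.Y886.EP.rom
  obtain ⟨κ, hκ, hmany⟩ := Pool.Agent.Y886.EP.count_CP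
  obtain ⟨c, hc, X₀, hX₀⟩ := hrom (max r0 9) (le_max_left _ _)
    (fun X k => 1 ≤ X ∧ Pool.Agent.Y886.EP.CP X k)
    (fun X k _ _ h => Pool.Agent.Y886.EP.missing_of (le_max_right _ _) h.1 h.2) κ hκ (by
      filter_upwards [hmany, eventually_ge_atTop 1] with X hX hX1
      refine hX.trans ?_
      apply le_of_eq
      congr 2
      ext k
      simp [hX1]) 3 {m : ℕ | Pool.Agent.Y886.EP.Chen (Nat.nth Nat.Prime (m - 1))}
    Pool.Agent.Y886.EP.density
  refine ⟨c, hc, ?_⟩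
  filter_upwards [eventually_ge_atTop X₀] with X hX
  obtain ⟨I, hI1, hI2, hI3⟩ := hX₀ X hX
  refine hI3.trans ?_
  have hfin : {n : ℕ | X < n ∧ n ≤ 3 * X ∧ ∃ k m : ℕ, 1 ≤ k ∧ 1 ≤ m ∧ k + m = n ∧
        (m : ℝ) ≤ Real.log X ^ 2 * Real.log (Real.log X) ^ 4 ∧
        Chen (6 * k - 1) ∧ Chen (Nat.nth Nat.Prime (m - 1))}.Finite :=
    (Set.finite_Iic (3 * X)).subset (fun n hn => hn.2.1)
  have hsub : (I : Set ℕ) ⊆ {n : ℕ | X < n ∧ n ≤ 3 * X ∧ ∃ k m : ℕ, 1 ≤ k ∧ 1 ≤ m ∧ k + m = n ∧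
        (m : ℝ) ≤ Real.log X ^ 2 * Real.log (Real.log X) ^ 4 ∧
        Chen (6 * k - 1) ∧ Chen (Nat.nth Nat.Prime (m - 1))} := by
    intro n hn
    have h3 := mem_Ioc.1 (hI1 hn)
    obtain ⟨k, m, hkm, hmM, hm1, hmL, hk1, hk2, hkA⟩ := hI2 n hn
    exact ⟨h3.1, h3.2, k, m, by omega, hm1, hkm, hmL,
      Pool.Agent.Y886.EP.chen_of (by omega) hk2 hkA.2, hmM⟩
  have h5 := Set.ncard_le_ncard hsub hfin
  rw [Set.ncard_coe_finset] at h5
  exact_mod_cast h5

end Pool.Agent.Results.MP_ea8352_nt.ChenPairs
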