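import Mathlib
import Pool.Agent.Y886.EPA
import Pool.Agent.Y886.EPB
import Pool.Agent.Y886.EPD

set_option autoImplicit false
set_option maxHeartbeats 1000000

/-! # Sums `n = k + m`, `6 k ± 1` almost twins, `m` in an arbitrary set of indices

The exact order of the number of the sums `n ≤ x` in the worst case over all sets of indices `m` which
are not very thin.
-/

namespace Pool.Agent.Results.MP_ea8352_nt.ExactOrderForIndexSets

open Finset Filter

/-- `q` is a prime, and `q + 2` has at most `r` prime factors (counted with multiplicity), each of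
which, `p` say, has `p ^ s > q`. -/
def AlmostTwin (r s q : ℕ) : Prop :=
  q.Prime ∧ (q + 2).primeFactorsList.length ≤ r ∧ ∀ p : ℕ, p.Prime → p ∣ q + 2 → q < p ^ s

open Classical in
/-- the number of the elements of `K` in `[1, t]` -/
noncomputable def count (K : Set ℕ) (t : ℕ) : ℕ := ((Icc 1 t).filter (· ∈ K)).card

open Classical in
/-- the number of the `n ≤ x` of the form `n = k + m`, `k, m ≥ 1`, with `m` in `K` and `6 k - 1`
an `AlmostTwin r s` -/
noncomputable def represented (r s : ℕ) (K : Set ℕ) (x : ℕ) : ℕ :=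
  ((Icc 1 x).filter (fun n => ∃ k m : ℕ, 1 ≤ k ∧ 1 ≤ m ∧ k + m = n ∧ m ∈ K ∧
    AlmostTwin r s (6 * k - 1))).card

lemma lower (B : ℕ) (K : Set ℕ) (hK : ∀ᶠ t : ℕ in atTop, (t : ℝ) / Real.log t ^ B ≤ count K t) :
    ∃ c : ℝ, 0 < c ∧ ∀ᶠ x : ℕ in atTop,
      c * x / Real.log (Real.log (Real.log (Real.log x))) ^ 2 ≤ represented 2 9 K x := by
  classical
  obtain ⟨r0, hr0, hrom⟩ := Pool.Agent.Y886.EP.rom
  obtain ⟨κ, hκ, hmany⟩ := Pool.Agent.Y886.EP.count_CP
  obtain ⟨c, hc, X₀, hX₀⟩ := hrom (max r0 9) (le_max_left _ _)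
    (fun X k => 1 ≤ X ∧ Pool.Agent.Y886.EP.CP X k)
    (fun X k _ _ h => Pool.Agent.Y886.EP.missing_of (le_max_right _ _) h.1 h.2) κ hκ (by
      filter_upwards [hmany, eventually_ge_atTop 1] with X hX hX1
      refine hX.trans ?_
      apply le_of_eq
      congr 2
      ext k
      simp [hX1]) B K (by
      obtain ⟨y0, hy0⟩ := eventually_atTop.1 hK
      refine ⟨max y0 2, fun y hy => ⟨(Icc 1 y).filter (· ∈ K), filter_subset _ _,
        fun a ha => (mem_filter.1 ha).2, ?_⟩⟩
      have h1 := hy0 y ((le_max_left _ _).trans hy)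
      have h2 : 2 ≤ y := (le_max_right _ _).trans hy
      have h3 : 0 < Real.log (y : ℝ) := Real.log_pos (by exact_mod_cast (by omega : 1 < y))
      rw [div_le_iff₀ (by positivity)] at h1
      exact h1)
  have tN : Tendsto (fun N : ℕ => (N : ℝ)) atTop atTop := tendsto_natCast_atTop_atTop
  have tL : Tendsto (fun N : ℕ => Real.log (N : ℝ)) atTop atTop := Real.tendsto_log_atTop.comp tN
  have tLL : Tendsto (fun N : ℕ => Real.log (Real.log (N : ℝ))) atTop atTop :=
    Real.tendsto_log_atTop.comp tL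
  have tLLL : Tendsto (fun N : ℕ => Real.log (Real.log (Real.log (N : ℝ)))) atTop atTop :=
    Real.tendsto_log_atTop.comp tLL
  have t4 : Tendsto (fun N : ℕ => Real.log (Real.log (Real.log (Real.log (N : ℝ))))) atTop atTop :=
    Real.tendsto_log_atTop.comp tLLL
  have t3 : Tendsto (fun N : ℕ => N / 3) atTop atTop := Nat.tendsto_div_const_atTop (by norm_num)
  refine ⟨c / 6, by positivity, ?_⟩
  filter_upwards [t3.eventually (tL.eventually_ge_atTop 1), t3.eventually (tLL.eventually_ge_atTop 1),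
    t3.eventually (tLLL.eventually_ge_atTop 1), t3.eventually (t4.eventually_ge_atTop 1),
    t3.eventually_ge_atTop X₀, eventually_ge_atTop 3] with x h1 h2 h3 h4 h5 h6
  obtain ⟨X, hX⟩ : ∃ X : ℕ, X = x / 3 := ⟨_, rfl⟩
  rw [← hX] at h1 h2 h3 h4 h5
  obtain ⟨I, hI1, hI2, hI3⟩ := hX₀ X h5
  have hXx : 3 * X ≤ x := by omega
  have hx6 : x ≤ 6 * X := by omega
  have hxr : (x : ℝ) ≤ 6 * X := by exact_mod_cast hx6
  have hX0 : (0 : ℝ) < X := by exact_mod_cast (by omega : 0 < X)
  have hXxr : (X : ℝ) ≤ x := by exact_mod_cast (by omega : X ≤ x)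
  have g1 : Real.log X ≤ Real.log x := Real.log_le_log hX0 hXxr
  have g2 := Real.log_le_log (by linarith) g1
  have g3 := Real.log_le_log (by linarith) g2
  have g4 := Real.log_le_log (by linarith) g3
  have hle : c / 6 * x / Real.log (Real.log (Real.log (Real.log x))) ^ 2 ≤
      c * X / Real.log (Real.log (Real.log (Real.log X))) ^ 2 := by
    apply div_le_div₀ (by positivity) _ (by positivity) (pow_le_pow_left₀ (by linarith) g4 2)
    nlinarith
  refine hle.trans (hI3.trans ?_)
  have hsub : I ⊆ (Icc 1 x).filter (fun n => ∃ k m : ℕ, 1 ≤ k ∧ 1 ≤ m ∧ k + m = n ∧ m ∈ K ∧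
      AlmostTwin 2 9 (6 * k - 1)) := by
    intro n hn
    have h7 := mem_Ioc.1 (hI1 hn)
    obtain ⟨k, m, hkm, hmM, hm1, -, hk1, hk2, hkA⟩ := hI2 n hn
    rw [mem_filter, mem_Icc]
    exact ⟨⟨by omega, by omega⟩, k, m, by omega, hm1, hkm, hmM,
      Pool.Agent.Y886.EP.chen_of (by omega) hk2 hkA.2⟩
  exact_mod_cast card_le_card hsub

/-- **Theorem.** (1) If `K` has at least `t / (log t)^B` elements up to `t`, for all large `t`, then for
some `c > 0` and all large `x` at least `c x / (log log log log x)²` of the `n ≤ x` are sums `k + m` with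
`m` in `K`, `6 k - 1` prime and `6 k + 1` a prime or a product of two primes (all larger than the ninth
root of `6 k - 1`). (2) There is a set `K` with at least `t / (log t)^δ` elements up to `t`, for every
`δ > 0` and all large `t`, such that for all `r` and `s` for all large `x` at most
`C x / (log log log log x)²` of the `n ≤ x`, `C = C(s)`, are sums `k + m` with `m` in `K`, `6 k - 1`
prime and `6 k + 1` a product of at most `r` primes larger than `(6 k - 1)^(1/s)`. -/
theorem result :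
    (∀ (B : ℕ) (K : Set ℕ), (∀ᶠ t : ℕ in atTop, (t : ℝ) / Real.log t ^ B ≤ count K t) →
      ∃ c : ℝ, 0 < c ∧ ∀ᶠ x : ℕ in atTop,
        c * x / Real.log (Real.log (Real.log (Real.log x))) ^ 2 ≤ represented 2 9 K x) ∧
    ∃ K : Set ℕ,
      (∀ δ : ℝ, 0 < δ → ∀ᶠ t : ℕ in atTop, (t : ℝ) / Real.log t ^ δ ≤ count K t) ∧
      ∀ s : ℕ, ∃ C : ℝ, ∀ᶠ x : ℕ in atTop, ∀ r : ℕ,
        (represented r s K x : ℝ) ≤ C * x / Real.log (Real.log (Real.log (Real.log x))) ^ 2 := by
  classical
  refine ⟨lower, Pool.Agent.Y886.EP.K, fun δ hδ => Pool.Agent.Y886.EP.cnt_ge δ hδ, fun s => ?_⟩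
  obtain ⟨C, -, hC⟩ := Pool.Agent.Y886.EP.upper s
  refine ⟨C, ?_⟩
  filter_upwards [hC] with x hx r
  refine le_trans ?_ hx
  unfold represented Pool.Agent.Y886.EP.repr
  apply Nat.cast_le.2
  apply card_le_card
  intro n hn
  rw [mem_filter] at hn ⊢
  obtain ⟨h1, k, m, hk, hm, hkm, hmK, h2, -, h3⟩ := hn
  exact ⟨h1, k, m, hk, hm, hkm, hmK, h2, h3⟩

end Pool.Agent.Results.MP_ea8352_nt.ExactOrderForIndexSets
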